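import Pool.Agent.L0h32.UX.Stm

set_option autoImplicit false
set_option linter.all false

/-! # The memory at the beginning is right -/

namespace Pool.Agent.L0h59.UX

open Relation
open Pool.Agent.H630R2.LA (LimAut Sym Cfg Step init initTape WS lrel bitS ix nr Ann keep nr_zero)
open Pool.Agent.L0h32.UX

section

variable {P : Type} {S : P → Prop} {Eg : ℕ → P → P → Prop} {wt : ℕ → P → P → ℕ}

theorem gwp_le {j : ℕ} {p : P} {l : ℕ} {q : P} {v : ℕ} (hw : GWp Eg wt j p l q v) : j ≤ l := by
  induction hw with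
  | refl j p => exact le_rfl
  | cons j l p p' q v he hw ih => omega

theorem gwp_self {j : ℕ} {p : P} {l : ℕ} {q : P} {v : ℕ} (hw : GWp Eg wt j p l q v) (h : j = l) :
    p = q := by
  cases hw with
  | refl j p => rfl
  | cons j l p p' q v he hw =>
    have := gwp_le hw
    omega

theorem guq_zero (z : P) : GUq S Eg wt 0 z := by
  intro j hj p p' hp hp'
  have hj0 : j = 0 := by omega
  subst hj0
  obtain ⟨_, _, _, h1, _⟩ := hp
  obtain ⟨_, _, _, h2, _⟩ := hp'
  rw [gwp_self h1 rfl, gwp_self h2 rfl]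

theorem gdm_zero (p : P) : GDm S Eg wt 0 p = 0 := by
  unfold GDm
  by_cases hp : S p
  · exact Nat.le_zero.1 (Nat.sInf_le ⟨hp, rfl⟩)
  · have : {v | GPw S Eg wt 0 p v} = ∅ := by
      ext v
      simp only [Set.mem_setOf_eq, Set.mem_empty_iff_false, iff_false]
      exact fun h => hp h.1
    rw [this]
    exact Nat.sInf_empty

end

section

variable {A : Type} {h : ℕ} {rel : A → Fin (2 ^ h) → Fin (2 ^ h) → Bool} {p0 : Fin (2 ^ h)}
  {facc : Fin (2 ^ h) → Bool} {K : ℕ} {W : ℕ → ℕ → Fin (2 ^ h) → Fin (2 ^ h) → ℕ} {w : List A}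

theorem cnL_succ (β l k : ℕ) (q0 : Fin (2 ^ h)) (hq : q0.val = k) (b : Bool)
    (hb : b = true ↔ nr h rel p0 w (β + l) q0) :
    cnL h rel p0 w β l (k + 1) = cnL h rel p0 w β l k + (if b = true then 1 else 0) := by
  unfold cnL
  by_cases hn : nr h rel p0 w (β + l) q0
  · rw [if_pos (hb.2 hn)]
    rw [← Finset.card_insert_of_notMem (a := q0)]
    · congr 1
      ext q
      simp only [Finset.mem_filter, Finset.mem_univ, true_and, Finset.mem_insert]
      constructor
      · rintro ⟨h1, h2⟩
        by_cases h3 : q.val = k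
        · left
          apply Fin.ext
          omega
        · right
          exact ⟨by omega, h2⟩
      · rintro (rfl | ⟨h1, h2⟩)
        · exact ⟨by omega, hn⟩
        · exact ⟨by omega, h2⟩
    · simp only [Finset.mem_filter, Finset.mem_univ, true_and, not_and]
      intro h1
      omega
  · rw [if_neg (fun h1 => hn (hb.1 h1))]
    refine (congrArg Finset.card (Finset.ext fun q => ?_)).trans (Nat.add_zero _).symm
    simp only [Finset.mem_filter, Finset.mem_univ, true_and]
    constructor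
    · rintro ⟨h1, h2⟩
      refine ⟨?_, h2⟩
      by_contra h3
      have h4 : q = q0 := Fin.ext (by omega)
      rw [h4] at h2
      exact hn h2
    · rintro ⟨h1, h2⟩
      exact ⟨by omega, h2⟩

theorem cnL_zero (β l : ℕ) : cnL h rel p0 w β l 0 = 0 := by
  classical
  unfold cnL
  rw [Finset.card_eq_zero, Finset.filter_eq_empty_iff]
  intro q _ h1
  exact absurd h1.1 (Nat.not_lt_zero _)

theorem cnL_first : cnL h rel p0 w 0 0 (2 ^ h) = 1 := by
  unfold cnL
  rw [Finset.card_eq_one]
  refine ⟨p0, ?_⟩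
  ext q
  simp only [Finset.mem_filter, Finset.mem_univ, true_and, Finset.mem_singleton, Nat.add_zero,
    nr_zero]
  exact ⟨fun h1 => h1.2, fun h1 => ⟨q.isLt, h1⟩⟩

theorem base {t : ℕ} {x : Wr} (fin : Bool) (hx : WOK h rel p0 w t x) :
    cS h x fin = cnL h rel p0 w (t + 1 - EE h x fin) 0 (2 ^ h) ∧
      (LL h x fin = 0 → t + 1 - EE h x fin = 0) := by
  obtain ⟨h1, h2, h3, h4, h5⟩ := hx
  have hp : 0 < 2 ^ h := Nat.two_pow_pos h
  have hm : t % 2 ^ h < 2 ^ h := Nat.mod_lt _ hp
  have hd : t / 2 ^ h * 2 ^ h + t % 2 ^ h = t := Nat.div_add_mod' t (2 ^ h)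
  unfold cS EE LL
  by_cases ht : t < 2 ^ h
  · have hf : x.first = true := by rw [h1]; exact decide_eq_true ht
    have hk : x.k = t := by rw [h2]; exact Nat.mod_eq_of_lt ht
    have h0 : t / 2 ^ h * 2 ^ h = 0 := by rw [Nat.div_eq_of_lt ht, Nat.zero_mul]
    rw [h0, Nat.mod_eq_of_lt ht] at h4
    rw [h0] at h5
    cases fin with
    | true =>
      simp only [if_true, hf, hk, Nat.sub_self]
      exact ⟨cnL_first.symm, fun _ => trivial⟩
    | false =>
      simp only [Bool.false_eq_true, if_false, hf, if_true, hk, true_and]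
      by_cases hk1 : t + 1 < 2 ^ h
      · rw [if_pos hk1, if_pos hk1, if_pos hk1, Nat.sub_self]
        exact ⟨cnL_first.symm, fun _ => rfl⟩
      · rw [if_neg hk1, if_neg hk1, if_neg hk1]
        have ht1 : t + 1 = 2 ^ h := by omega
        refine ⟨?_, fun h6 => absurd h6 (by omega)⟩
        rw [ht1, Nat.sub_self]
        unfold cb
        rw [h4, ← ht1]
        refine (cnL_succ 0 0 t (ix h t) ?_ x.b h5).symm
        exact Nat.mod_eq_of_lt ht
  · have hf : x.first = false := by rw [h1]; exact decide_eq_false ht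
    rw [if_neg ht] at h3
    have hge : 2 ^ h ≤ t / 2 ^ h * 2 ^ h := by
      have : 1 ≤ t / 2 ^ h := (Nat.one_le_div_iff hp).2 (by omega)
      calc 2 ^ h = 1 * 2 ^ h := (Nat.one_mul _).symm
        _ ≤ _ := Nat.mul_le_mul_right _ this
    cases fin with
    | true =>
      simp only [if_true, hf, Bool.false_eq_true, if_false]
      refine ⟨?_, fun h6 => absurd h6 (by omega)⟩
      rw [h3]
      congr 1
      rw [h2]
      omega
    | false =>
      simp only [Bool.false_eq_true, if_false, hf, false_and]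
      by_cases hk1 : x.k + 1 < 2 ^ h
      · rw [if_pos hk1, if_pos hk1]
        refine ⟨?_, fun h6 => absurd h6 (by omega)⟩
        rw [h3]
        congr 1
        rw [h2]
        omega
      · rw [if_neg hk1, if_neg hk1]
        refine ⟨?_, fun h6 => absurd h6 (by omega)⟩
        have hk2 : t % 2 ^ h + 1 = 2 ^ h := by omega
        have hb : t + 1 - 2 ^ h = t / 2 ^ h * 2 ^ h := by omega
        rw [hb]
        unfold cb
        rw [h4]
        have h6 := cnL_succ (t / 2 ^ h * 2 ^ h) 0 (t % 2 ^ h) (ix h t) rfl x.b h5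
        rw [hk2] at h6
        exact h6.symm

end

theorem t_MV0 : S_MV0 := by
  intro A h rel p0 facc K W w t i x fin hi hx hf1 hf2
  classical
  obtain ⟨hA, hB⟩ := base fin hx
  refine ⟨hx, hf1, hf2, hi, Nat.zero_le _, hA, ?_, fun q => guq_zero q, Nat.zero_le _,
    (cnL_zero _ _).symm, ?_, fun q hq => absurd hq (Nat.not_lt_zero _), Nat.zero_le _, fun _ => rfl,
    fun _ => rfl, ⟨∅, fun _ => 0, ?_, rfl, rfl, ?_⟩, ?_⟩
  · symm
    unfold smL
    apply Finset.sum_eq_zero
    intro q _
    exact gdm_zero q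
  · symm
    unfold smL
    apply Finset.sum_eq_zero
    intro q hq
    exact absurd (Finset.mem_filter.1 hq).2.1 (Nat.not_lt_zero _)
  · intro q hq
    exact absurd hq (Finset.notMem_empty q)
  · rw [Finset.filter_empty]
    refine ⟨?_, fun _ => ⟨rfl, rfl⟩, fun h1 => absurd h1 (by simp [mem0, rec0])⟩
    constructor
    · intro h1
      exact absurd h1 (by simp [mem0, rec0])
    · rintro ⟨q, hq⟩
      exact absurd hq (Finset.notMem_empty q)
  · change (decide (LL h x fin = 0) && tst h facc x fin p0) = true ↔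
      (0 = LL h x fin ∧ ∃ q, nr h rel p0 w (t + 1 - EE h x fin + LL h x fin) q ∧
        tst h facc x fin q = true) ∨
      (0 + 1 = LL h x fin ∧ ∃ q : Fin (2 ^ h), q.val < 0 ∧
        nr h rel p0 w (t + 1 - EE h x fin + LL h x fin) q ∧ tst h facc x fin q = true)
    rw [Bool.and_eq_true, decide_eq_true_iff]
    constructor
    · rintro ⟨h1, h2⟩
      left
      refine ⟨h1.symm, p0, ?_, h2⟩
      rw [hB h1, h1]
      exact (nr_zero w p0).2 rfl
    · rintro (⟨h1, q, h2, h3⟩ | ⟨_, q, h2, _⟩)
      · refine ⟨h1.symm, ?_⟩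
        rw [hB h1.symm, ← h1] at h2
        rw [(nr_zero w q).1 h2] at h3
        exact h3
      · exact absurd h2 (Nat.not_lt_zero _)

end Pool.Agent.L0h59.UX
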